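import Pool.Agent.Helper21.W4.St1

/-!
# Project W4, module Vol: the three arrays have the same sum
-/

set_option autoImplicit false

namespace Pool.Agent.Helper86.W4

open Pool.Agent.Helper21.W4 Finset

theorem cnt (B a : ℕ) (h : a ≤ B) : a = ∑ r ∈ range B, if r < a then 1 else 0 := by
  rw [← Finset.card_filter]
  have e : (range B).filter (fun r => r < a) = range a := by
    ext r
    simp only [mem_filter, mem_range]
    omega
  rw [e, card_range]

theorem hVol : StVol := by
  intro B h1 h2 h3 hP
  obtain ⟨e12, e13, bd⟩ := hP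
  have b1 : ∀ q r, h1 q r ≤ B := by
    intro q r
    rcases Nat.eq_zero_or_pos (h1 q r) with h | h
    · omega
    · have := bd (h1 q r - 1) q r (by omega)
      omega
  have b2 : ∀ p r, h2 p r ≤ B := by
    intro p r
    rcases Nat.eq_zero_or_pos (h2 p r) with h | h
    · omega
    · have := bd p (h2 p r - 1) r ((e12 _ _ _).2 (by omega))
      omega
  have b3 : ∀ p q, h3 p q ≤ B := by
    intro p q
    rcases Nat.eq_zero_or_pos (h3 p q) with h | h
    · omega
    · have := bd p q (h3 p q - 1) ((e13 _ _ _).2 (by omega))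
      omega
  have s3 : vol B h3 = ∑ p ∈ range B, ∑ q ∈ range B, ∑ r ∈ range B,
      if p < h1 q r then 1 else 0 := by
    unfold vol
    refine sum_congr rfl fun p _ => sum_congr rfl fun q _ => ?_
    rw [cnt B (h3 p q) (b3 p q)]
    refine sum_congr rfl fun r _ => ?_
    simp only [e13 p q r]
  have s2 : vol B h2 = ∑ p ∈ range B, ∑ q ∈ range B, ∑ r ∈ range B,
      if p < h1 q r then 1 else 0 := by
    unfold vol
    refine sum_congr rfl fun p _ => ?_
    rw [sum_comm]
    refine sum_congr rfl fun r _ => ?_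
    rw [cnt B (h2 p r) (b2 p r)]
    refine sum_congr rfl fun q _ => ?_
    simp only [e12 p q r]
  have s1 : vol B h1 = ∑ p ∈ range B, ∑ q ∈ range B, ∑ r ∈ range B,
      if p < h1 q r then 1 else 0 := by
    unfold vol
    rw [sum_comm (s := range B) (t := range B) (f := fun p q => ∑ r ∈ range B,
      if p < h1 q r then 1 else 0)]
    refine sum_congr rfl fun q _ => ?_
    rw [sum_comm (s := range B) (t := range B) (f := fun p r =>
      if p < h1 q r then 1 else 0)]
    refine sum_congr rfl fun r _ => ?_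
    exact cnt B (h1 q r) (b1 q r)
  exact ⟨by rw [s1, s3], by rw [s2, s3]⟩

theorem hBk : StBk := by
  intro hV B h1 h2 h3 hP
  have h := hV B (fun q r => h1 (q + 1) (r + 1) - 1) (fun p r => h2 (p + 1) (r + 1) - 1)
    (fun p q => h3 (p + 1) (q + 1) - 1) ⟨?_, ?_, ?_⟩
  · exact h
  · intro p q r
    have := hP.e12 (p + 1) (q + 1) (r + 1)
    show p < h1 (q + 1) (r + 1) - 1 ↔ q < h2 (p + 1) (r + 1) - 1
    omega
  · intro p q r
    have := hP.e13 (p + 1) (q + 1) (r + 1)
    show p < h1 (q + 1) (r + 1) - 1 ↔ r < h3 (p + 1) (q + 1) - 1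
    omega
  · intro p q r hp
    have := hP.bd (p + 1) (q + 1) (r + 1) (by
      have : p < h1 (q + 1) (r + 1) - 1 := hp
      omega)
    omega

end Pool.Agent.Helper86.W4
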